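import Pool.Agent.Lib_helper23.DV.Emb

/-! Blow-ups of a four point configuration with scales in a dense set. -/

open Finset

set_option autoImplicit false

namespace Pool.Agent.Lib_helper23.DV

section Reduced

variable {α : Type*} [DecidableEq α] [Fintype α] (G : SimpleGraph α) [DecidableRel G.Adj]
  (P : Finpartition (univ : Finset α))

/-- the pair of vertices lies in a uniform dense pair of clusters -/
def Good (ε δ : ℝ) (u v : α) : Prop :=
  ∃ U ∈ P.parts, ∃ V ∈ P.parts, u ∈ U ∧ v ∈ V ∧ U ≠ V ∧ G.IsUniform ε U V ∧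
    δ ≤ (G.edgeDensity U V : ℝ)

open Classical in
theorem card_not_good [Nonempty α] (ε ε₂ δ : ℝ) (hε : 0 < ε) (hε₂ : 0 < ε₂) (hδ : 0 < δ)
    (hP : P.IsEquipartition) (hPε : P.IsUniform G ε) (hP' : 4 / ε₂ ≤ #P.parts) :
    (#{p : α × α | G.Adj p.1 p.2 ∧ ¬ Good G P ε δ p.1 p.2} : ℝ) <
      4 * ε * (Fintype.card α) ^ 2 + ε₂ / 2 * (Fintype.card α) ^ 2 +
        4 * δ * (Fintype.card α) ^ 2 := by
  let A := (P.nonUniforms G ε).biUnion fun (U, V) ↦ U ×ˢ V
  let B := P.parts.biUnion offDiag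
  let C := (P.sparsePairs G δ).biUnion fun (U, V) ↦ G.interedges U V
  have hsub : ({p : α × α | G.Adj p.1 p.2 ∧ ¬ Good G P ε δ p.1 p.2} : Finset (α × α)) ⊆
      A ∪ B ∪ C := by
    rintro ⟨x, y⟩ hxy
    rw [Finset.mem_filter] at hxy
    obtain ⟨-, h, h'⟩ := hxy
    simp only [A, B, C, mem_biUnion, mem_union, mem_product, Prod.exists, mem_offDiag,
      or_assoc, and_assoc, P.mk_mem_nonUniforms, Finpartition.mk_mem_sparsePairs,
      SimpleGraph.mem_interedges_iff]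
    obtain ⟨U, hU, hx⟩ := P.exists_mem (mem_univ x)
    obtain ⟨V, hV, hy⟩ := P.exists_mem (mem_univ y)
    obtain rfl | hUV := eq_or_ne U V
    · exact Or.inr (Or.inl ⟨U, hU, hx, hy, G.ne_of_adj h⟩)
    by_cases h₂ : G.IsUniform ε U V
    · refine Or.inr <| Or.inr ⟨U, V, hU, hV, hUV, ?_, hx, hy, h⟩
      by_contra h3
      exact h' ⟨U, hU, V, hV, hx, hy, hUV, h₂, not_lt.1 h3⟩
    · exact Or.inl ⟨U, V, hU, hV, hUV, h₂, hx, hy⟩
  calc (#{p : α × α | G.Adj p.1 p.2 ∧ ¬ Good G P ε δ p.1 p.2} : ℝ) ≤ #(A ∪ B ∪ C) := by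
        exact_mod_cast Finset.card_le_card hsub
    _ ≤ #(A ∪ B) + #C := mod_cast (card_union_le _ _)
    _ ≤ #A + #B + #C := by gcongr; exact mod_cast card_union_le _ _
    _ < 4 * ε * #(univ : Finset α) ^ 2 + _ + _ := by
      gcongr; exact hP.sum_nonUniforms_lt univ_nonempty hε hPε
    _ ≤ _ + ε₂ / 2 * #(univ : Finset α) ^ 2 + 4 * δ * #(univ : Finset α) ^ 2 := by
      gcongr
      · exact hP.card_biUnion_offDiag_le hε₂ hP'
      · exact hP.card_interedges_sparsePairs_le (G := G) (ε := δ) (by positivity)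
    _ = _ := by rw [Finset.card_univ]

end Reduced

/-- the graph on four copies of an interval whose edges have lengths in the dilates of `E` -/
def scaleGraph (x : Fin 4 → ℕ) (E : Finset ℕ) (N : ℕ) : SimpleGraph (Fin 4 × Fin N) :=
  SimpleGraph.fromRel fun u v => u.1 < v.1 ∧ ∃ L ∈ E, (v.2 : ℕ) = u.2 + (x v.1 - x u.1) * L

/-- Cliques of clusters, blown up: for every dense set `E` of scales the graph contains four groups
of `K` vertices with all edges between different groups. -/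
theorem trem_core (x : Fin 4 → ℕ) (hx : StrictMono x) (K : ℕ) (δ : ℝ) (hδ : 0 < δ) (hδ1 : δ ≤ 1) :
    ∃ R > 0, ∀ E : Finset ℕ, E ⊆ Finset.Icc 1 R → δ * R ≤ #E →
      ∃ N : ℕ, ∃ S : Fin 4 → Finset (Fin 4 × Fin N), (∀ i, #(S i) = K) ∧
        ∀ i j, i ≠ j → ∀ a ∈ S i, ∀ b ∈ S j, (scaleGraph x E N).Adj a b := by
  classical
  set m : ℕ := x 3 + 1 with hm
  have hm0 : (0:ℝ) < m := by rw [hm]; push_cast; positivity
  have hm1 : (1:ℝ) ≤ m := by rw [hm]; push_cast; linarith [(Nat.cast_nonneg (x 3) : (0:ℝ) ≤ x 3)]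
  set c : ℝ := δ / (16 * m ^ 2) with hc
  have hc0 : 0 < c := by positivity
  have hc1 : c ≤ 1 := by
    rw [hc, div_le_one (by positivity)]
    nlinarith
  set θ : ℝ := c / 32 with hθ
  have hθ0 : 0 < θ := by positivity
  have hθ1 : θ ≤ 1 := by rw [hθ]; linarith
  set ε : ℝ := min θ (θ ^ (K * 4) / 8) with hε
  have hε0 : 0 < ε := by rw [hε]; positivity
  have hεθ : ε ≤ θ := min_le_left _ _
  have hεp : ε ≤ θ ^ (K * 4) / 8 := min_le_right _ _
  have hc2 : 0 < c / 2 := by positivity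
  set l : ℕ := ⌈4 / (c / 2)⌉₊ with hl
  set bd : ℕ := SzemerediRegularity.bound ε l with hbd
  have hbd0 : 0 < bd := SzemerediRegularity.bound_pos _ _
  set q : ℕ := ⌈2 * ((K : ℝ) + 1) / θ ^ (K * 4)⌉₊ with hq
  refine ⟨bd * q + l + 1, by positivity, ?_⟩
  set R : ℕ := bd * q + l + 1 with hR
  have hRpos : 0 < R := by rw [hR]; positivity
  intro E hER hEc
  set N : ℕ := m * R with hN
  have hNpos : 0 < N := by rw [hN, hm]; positivity
  let G := scaleGraph x E N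
  have hcard : Fintype.card (Fin 4 × Fin N) = 4 * N := by
    rw [Fintype.card_prod, Fintype.card_fin, Fintype.card_fin]
  have hRN : R ≤ 4 * N := by
    rw [hN, hm]
    nlinarith
  have : Nonempty (Fin 4 × Fin N) := ⟨(0, ⟨0, hNpos⟩)⟩
  have hlcard : l ≤ Fintype.card (Fin 4 × Fin N) := by
    rw [hcard]
    refine le_trans ?_ hRN
    rw [hR]
    omega
  obtain ⟨P, hP₁, hP₂, hP₃, hP₄⟩ := szemeredi_regularity G hε0 hlcard
  have hP5 : 4 / (c / 2) ≤ #P.parts := (Nat.le_ceil _).trans (by exact_mod_cast hP₂)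
  have hrem := card_not_good G P ε (c / 2) (c / 16) hε0 hc2 (by positivity) hP₁ hP₄ hP5
  let τ : ℕ → ℕ → Fin 4 → Fin 4 × Fin N := fun a L i =>
    (i, ⟨(a + x i * L) % N, Nat.mod_lt _ hNpos⟩)
  have hx3 : ∀ i, x i ≤ x 3 := fun i => hx.monotone (Fin.le_last i)
  have hEL : ∀ L ∈ E, 1 ≤ L ∧ L ≤ R := fun L hL => Finset.mem_Icc.1 (hER hL)
  have τv : ∀ a < R, ∀ L ∈ E, ∀ i, ((τ a L i).2 : ℕ) = a + x i * L := by
    intro a ha L hL i
    show (a + x i * L) % N = a + x i * L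
    apply Nat.mod_eq_of_lt
    have h1 : x i * L ≤ x 3 * R := Nat.mul_le_mul (hx3 i) (hEL L hL).2
    rw [hN, hm, add_mul, one_mul]
    omega
  have hadj : ∀ a < R, ∀ L ∈ E, ∀ i j, i < j → G.Adj (τ a L i) (τ a L j) := by
    intro a ha L hL i j hij
    refine (SimpleGraph.fromRel_adj _ _ _).2 ⟨fun h => hij.ne (congrArg Prod.fst h),
      Or.inl ⟨hij, L, hL, ?_⟩⟩
    rw [τv a ha L hL i, τv a ha L hL j]
    show a + x j * L = a + x i * L + (x j - x i) * L
    rw [add_assoc, ← add_mul, Nat.add_sub_cancel' (hx hij).le]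
  have hgood : ∃ a < R, ∃ L ∈ E, ∀ i j, i < j → Good G P ε (c / 16) (τ a L i) (τ a L j) := by
    by_contra hcon
    push Not at hcon
    have hle : #((Finset.range R) ×ˢ E) ≤
        #{p : (Fin 4 × Fin N) × (Fin 4 × Fin N) | G.Adj p.1 p.2 ∧ ¬ Good G P ε (c / 16) p.1 p.2} := by
      have hch : ∀ a < R, ∀ L ∈ E, ∃ p : Fin 4 × Fin 4, p.1 < p.2 ∧
          ¬ Good G P ε (c / 16) (τ a L p.1) (τ a L p.2) := by
        intro a ha L hL
        obtain ⟨i, j, hij, h⟩ := hcon a ha L hL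
        exact ⟨(i, j), hij, h⟩
      choose! g hg using hch
      refine Finset.card_le_card_of_injOn
        (fun p => (τ p.1 p.2 (g p.1 p.2).1, τ p.1 p.2 (g p.1 p.2).2)) ?_ ?_
      · rintro ⟨a, L⟩ hp
        rw [Finset.mem_coe, Finset.mem_product, Finset.mem_range] at hp
        rw [Finset.mem_coe, Finset.mem_filter]
        exact ⟨Finset.mem_univ _, hadj a hp.1 L hp.2 _ _ (hg a hp.1 L hp.2).1,
          (hg a hp.1 L hp.2).2⟩
      · rintro ⟨a, L⟩ hp ⟨a', L'⟩ hp' heq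
        rw [Finset.mem_coe, Finset.mem_product, Finset.mem_range] at hp hp'
        simp only [Prod.mk.injEq] at heq
        obtain ⟨h1, h2⟩ := heq
        have e1 : (τ a L (g a L).1).1 = (τ a' L' (g a' L').1).1 := by rw [h1]
        have e2 : (τ a L (g a L).2).1 = (τ a' L' (g a' L').2).1 := by rw [h2]
        change (g a L).1 = (g a' L').1 at e1
        change (g a L).2 = (g a' L').2 at e2
        have e3 : a + x (g a L).1 * L = a' + x (g a' L').1 * L' := by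
          rw [← τv a hp.1 L hp.2, ← τv a' hp'.1 L' hp'.2, h1]
        have e4 : a + x (g a L).2 * L = a' + x (g a' L').2 * L' := by
          rw [← τv a hp.1 L hp.2, ← τv a' hp'.1 L' hp'.2, h2]
        rw [← e1] at e3
        rw [← e2] at e4
        have hlt : x (g a L).1 < x (g a L).2 := hx (hg a hp.1 L hp.2).1
        obtain ⟨t, ht⟩ := Nat.exists_eq_add_of_lt hlt
        have e5 : (t + 1) * L = (t + 1) * L' := by
          rw [ht] at e4
          nlinarith
        have e6 : L = L' := Nat.eq_of_mul_eq_mul_left (Nat.succ_pos t) e5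
        subst e6
        have e7 : a = a' := by omega
        rw [e7]
    rw [Finset.card_product, Finset.card_range] at hle
    have h1 := (Nat.cast_le (α := ℝ)).2 hle
    have h2 := lt_of_le_of_lt h1 hrem
    rw [Nat.cast_mul] at h2
    rw [hcard] at h2
    have h3 : (R : ℝ) * (δ * R) ≤ R * #E := by gcongr
    have h4 : δ = c * (16 * m ^ 2) := by
      rw [hc]
      field_simp
    have h5 : 4 * ε ≤ c / 8 := by
      rw [hθ] at hεθ
      linarith
    have h6 : 4 * ε * ((4 * N : ℕ) : ℝ) ^ 2 ≤ c / 8 * ((4 * N : ℕ) : ℝ) ^ 2 := by gcongr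
    have h7 : (R : ℝ) * (δ * R) = c * ((4 * N : ℕ) : ℝ) ^ 2 := by
      rw [h4, hN]
      push_cast
      ring
    have h8 : (0:ℝ) < c * ((4 * N : ℕ) : ℝ) ^ 2 := by positivity
    nlinarith
  obtain ⟨a, haR, L, hLE, hgd⟩ := hgood
  have hCex : ∀ i, ∃ U ∈ P.parts, τ a L i ∈ U := fun i => P.exists_mem (mem_univ _)
  choose C hCP hCτ using hCex
  have hpair : ∀ i j, i < j → G.IsUniform ε (C i) (C j) ∧ c / 16 ≤ (G.edgeDensity (C i) (C j) : ℝ) := by
    intro i j hij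
    obtain ⟨U, hU, V, hV, hu, hv, -, h1, h2⟩ := hgd i j hij
    have e1 : C i = U := P.disjoint.elim (hCP i) hU (not_disjoint_iff.2 ⟨_, hCτ i, hu⟩)
    have e2 : C j = V := P.disjoint.elim (hCP j) hV (not_disjoint_iff.2 ⟨_, hCτ j, hv⟩)
    rw [e1, e2]
    exact ⟨h1, h2⟩
  have hpairU : ∀ i j, i ≠ j → G.IsUniform ε (C i) (C j) := by
    intro i j hij
    rcases lt_or_gt_of_ne hij with h | h
    · exact (hpair i j h).1
    · exact (hpair j i h).1.symm
  have hpairD : ∀ i j, i ≠ j → c / 16 ≤ (G.edgeDensity (C i) (C j) : ℝ) := by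
    intro i j hij
    rcases lt_or_gt_of_ne hij with h | h
    · exact (hpair i j h).2
    · rw [SimpleGraph.edgeDensity_comm]
      exact (hpair j i h).2
  have hCq : ∀ i, q ≤ #(C i) := by
    intro i
    have h1 := hP₁.average_le_card_part (hCP i)
    refine le_trans ?_ h1
    rw [Finset.card_univ, hcard, Nat.le_div_iff_mul_le (Finset.card_pos.2 ⟨_, hCP i⟩)]
    calc q * #P.parts ≤ q * bd := Nat.mul_le_mul_left _ hP₃
      _ = bd * q := mul_comm _ _
      _ ≤ R := by rw [hR]; omega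
      _ ≤ 4 * N := hRN
  obtain ⟨S, hS, hSadj⟩ := emb G ε (c / 16) θ hε0 (by rw [hθ] at hεθ ⊢; linarith) hθ0 hθ1 K 4 C C
    (fun i => Finset.Subset.refl _) hpairU hpairD (fun i => by
      have h1 : 2 * ((K : ℝ) + 1) / θ ^ (K * 4) ≤ #(C i) :=
        (Nat.le_ceil _).trans (Nat.cast_le.2 (hCq i))
      rw [div_le_iff₀ (by positivity)] at h1
      have h2 : ε * (#(C i) : ℝ) ≤ θ ^ (K * 4) / 8 * #(C i) := by gcongr
      push_cast
      nlinarith)
  exact ⟨N, S, fun i => (hS i).2, hSadj⟩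

theorem trem (x : Fin 4 → ℕ) (hx : StrictMono x) (k : ℕ) (δ : ℝ) (hδ : 0 < δ) (hδ1 : δ ≤ 1) :
    ∃ R > 0, ∀ E : Finset ℕ, E ⊆ Finset.Icc 1 R → δ * R ≤ #E →
      ∃ Y : Fin 4 → Finset ℕ, (∀ i, #(Y i) = k) ∧
        (∀ i j, i ≠ j → ∀ a ∈ Y i, ∀ b ∈ Y j, a ≠ b) ∧
        ∀ i j, i ≠ j → ∀ a ∈ Y i, ∀ b ∈ Y j, a < b →
          ∃ p q, p < q ∧ ∃ L ∈ E, b = a + (x q - x p) * L := by
  classical
  obtain ⟨R, hR0, hR⟩ := trem_core x hx (4 * k) δ hδ hδ1
  refine ⟨R, hR0, fun E hER hEc => ?_⟩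
  obtain ⟨N, S, hS, hSadj⟩ := hR E hER hEc
  have hEL : ∀ L ∈ E, 1 ≤ L ∧ L ≤ R := fun L hL => Finset.mem_Icc.1 (hER hL)
  have hYex : ∀ i, ∃ Z ⊆ (S i).image (fun u => (u.2 : ℕ)), #Z = k := by
    intro i
    apply Finset.exists_subset_card_eq
    have h1 : #(S i) ≤ 4 * #((S i).image (fun u => (u.2 : ℕ))) := by
      refine Finset.card_le_mul_card_image (S i) 4 fun b _ => ?_
      calc #{u ∈ S i | (u.2 : ℕ) = b} ≤ #(Finset.univ : Finset (Fin 4)) := by
            refine Finset.card_le_card_of_injOn (fun u => u.1) (fun _ _ => Finset.mem_coe.2 (Finset.mem_univ _)) ?_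
            intro u hu v hv huv
            rw [Finset.mem_coe, Finset.mem_filter] at hu hv
            exact Prod.ext huv (Fin.ext (hu.2.trans hv.2.symm))
        _ = 4 := by simp
    rw [hS i] at h1
    omega
  choose Y hYS hYk using hYex
  have hYu : ∀ i, ∀ b ∈ Y i, ∃ u ∈ S i, (u.2 : ℕ) = b := fun i b hb => by
    simpa using hYS i hb
  refine ⟨Y, hYk, fun i j hij u hu v hv huv => ?_, fun i j hij u hu v hv huv => ?_⟩
  · obtain ⟨u', hu', rfl⟩ := hYu i u hu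
    obtain ⟨v', hv', rfl⟩ := hYu j v hv
    have h1 := hSadj i j hij u' hu' v' hv'
    obtain ⟨-, ⟨h2, L', hL', h3⟩ | ⟨h2, L', hL', h3⟩⟩ := (SimpleGraph.fromRel_adj _ _ _).1 h1
    · have h4 : 0 < (x v'.1 - x u'.1) * L' :=
        Nat.mul_pos (Nat.sub_pos_of_lt (hx h2)) (hEL L' hL').1
      omega
    · have h4 : 0 < (x u'.1 - x v'.1) * L' :=
        Nat.mul_pos (Nat.sub_pos_of_lt (hx h2)) (hEL L' hL').1
      omega
  · obtain ⟨u', hu', rfl⟩ := hYu i u hu
    obtain ⟨v', hv', rfl⟩ := hYu j v hv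
    have h1 := hSadj i j hij u' hu' v' hv'
    obtain ⟨-, ⟨h2, L', hL', h3⟩ | ⟨h2, L', hL', h3⟩⟩ := (SimpleGraph.fromRel_adj _ _ _).1 h1
    · exact ⟨_, _, h2, L', hL', h3⟩
    · omega

/-- The ordered form: the groups lie in the four copies. -/
theorem trem_ord (x : Fin 4 → ℕ) (hx : StrictMono x) (k : ℕ) (hk : 0 < k) (δ : ℝ) (hδ : 0 < δ)
    (hδ1 : δ ≤ 1) :
    ∃ R > 0, ∀ E : Finset ℕ, E ⊆ Finset.Icc 1 R → δ * R ≤ #E →
      ∃ Y : Fin 4 → Finset ℕ, (∀ i, #(Y i) = k) ∧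
        ∀ p q, p < q → ∀ a ∈ Y p, ∀ b ∈ Y q, ∃ L ∈ E, b = a + (x q - x p) * L := by
  classical
  obtain ⟨R, hR0, hR⟩ := trem_core x hx k δ hδ hδ1
  refine ⟨R, hR0, fun E hER hEc => ?_⟩
  obtain ⟨N, S, hS, hSadj⟩ := hR E hER hEc
  have hne : ∀ i, ∃ u, u ∈ S i := fun i => by
    have : 0 < #(S i) := by rw [hS i]; exact hk
    exact Finset.card_pos.1 this
  choose u hu using hne
  have hfst : ∀ i j, i ≠ j → ∀ a ∈ S i, ∀ b ∈ S j, a.1 ≠ b.1 := by
    intro i j hij a ha b hb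
    obtain ⟨-, ⟨h2, -⟩ | ⟨h2, -⟩⟩ := (SimpleGraph.fromRel_adj _ _ _).1 (hSadj i j hij a ha b hb)
    · exact h2.ne
    · exact h2.ne'
  have hinj : Function.Injective fun i => (u i).1 := by
    intro i j hij
    by_contra h
    exact hfst i j h _ (hu i) _ (hu j) hij
  have hsurj : Function.Surjective fun i => (u i).1 := Finite.injective_iff_surjective.1 hinj
  choose g hg using hsurj
  have hcopy : ∀ p, ∀ v ∈ S (g p), v.1 = p := by
    intro p v hv
    by_contra hne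
    have h1 : (u (g v.1)).1 = v.1 := hg v.1
    have h2 : g v.1 ≠ g p := by
      intro h
      apply hne
      rw [← h1, h]
      exact hg p
    exact hfst _ _ h2 _ (hu _) _ hv h1
  refine ⟨fun p => (S (g p)).image fun v => (v.2 : ℕ), fun p => ?_, fun p q hpq a ha b hb => ?_⟩
  · rw [Finset.card_image_of_injOn, hS]
    intro v hv w hw hvw
    exact Prod.ext ((hcopy p v hv).trans (hcopy p w hw).symm) (Fin.ext hvw)
  · obtain ⟨v, hv, rfl⟩ := Finset.mem_image.1 ha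
    obtain ⟨w, hw, rfl⟩ := Finset.mem_image.1 hb
    have e1 := hcopy p v hv
    have e2 := hcopy q w hw
    have hgpq : g p ≠ g q := by
      intro h
      have e3 := hcopy q v (h ▸ hv)
      rw [e1] at e3
      exact hpq.ne e3
    obtain ⟨-, ⟨h2, L, hL, h3⟩ | ⟨h2, -⟩⟩ :=
      (SimpleGraph.fromRel_adj _ _ _).1 (hSadj _ _ hgpq v hv w hw)
    · rw [e1, e2] at h3
      exact ⟨L, hL, h3⟩
    · rw [e1, e2] at h2
      exact absurd h2 (not_lt.2 hpq.le)

end Pool.Agent.Lib_helper23.DV
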