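import Pool.Agent.Lib_helper23.PG.Defs
import Pool.Agent.Lib_helper23.DV.Trem

/-! For almost all `a` for which the quadruple of linear forms `h i a + g i` is admissible, one of its
differences lies in a set with the four bin property. -/

open Finset

set_option autoImplicit false

namespace Pool.Agent.Lib_helper23.DV

open PG in
theorem adm_gen (k : ℕ) (U : Finset ℕ) (hU : #U ≤ 4 * k)
    (hsm : ∀ p : ℕ, p.Prime → p ≤ 4 * k → ∃ r : ℕ, ∀ u ∈ U, ¬ u ≡ r [MOD p]) : Admissible U := by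
  classical
  intro p hp
  by_cases hpk : p ≤ 4 * k
  · exact hsm p hp hpk
  · by_contra hcon
    push Not at hcon
    choose f hf hfm using hcon
    have h1 : #(Finset.range p) ≤ #U := by
      refine Finset.card_le_card_of_injOn f (fun r _ => hf r) ?_
      intro a ha b hb hab
      rw [Finset.mem_coe, Finset.mem_range] at ha hb
      have h2 : a ≡ b [MOD p] := by
        have h3 := hfm a
        rw [hab] at h3
        exact h3.symm.trans (hfm b)
      exact Nat.ModEq.eq_of_lt_of_lt h2 ha hb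
    rw [Finset.card_range] at h1
    omega

open PG in
/-- four bins in arithmetic position without differences in `D` -/
theorem bins_key (D : Set ℕ) (k : ℕ) (hD : HitsBins 4 k D) (h g : Fin 4 → ℕ) (c W : ℕ) (hW0 : 0 < W)
    (hWk : (4 * k).factorial ∣ W) (Y : Fin 4 → Finset ℕ) (hYk : ∀ i, #(Y i) = k)
    (hadm : ∀ p : ℕ, p.Prime → p ≤ 4 * k → ∃ r : ℕ, ∀ i, ¬ h i * c + g i ≡ r [MOD p])
    (hlt : ∀ p q, p < q → ∀ a ∈ Y p, ∀ b ∈ Y q, h p * c + W * a + g p < h q * c + W * b + g q)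
    (hdiff : ∀ p q, p < q → ∀ a ∈ Y p, ∀ b ∈ Y q,
      (h q * c + W * b + g q) - (h p * c + W * a + g p) ∉ D) : False := by
  classical
  have hinj : ∀ i : Fin 4, Function.Injective fun z : ℕ => h i * c + W * z + g i := by
    intro i a b hab
    exact Nat.eq_of_mul_eq_mul_left hW0 (Nat.add_left_cancel (Nat.add_right_cancel hab))
  obtain ⟨i, j, hij, a, ha, b, hb, hab, hDab⟩ := hD
    (fun i => (Y i).image fun z => h i * c + W * z + g i)
    (fun i => by rw [Finset.card_image_of_injective _ (hinj i), hYk])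
    (fun i j hij => by
      rw [Finset.disjoint_left]
      intro u hu hv
      obtain ⟨y, hy, rfl⟩ := Finset.mem_image.1 hu
      obtain ⟨z, hz, hyz⟩ := Finset.mem_image.1 hv
      rcases lt_or_gt_of_ne hij with h1 | h1
      · have := hlt i j h1 y hy z hz
        omega
      · have := hlt j i h1 z hz y hy
        omega)
    (by
      refine adm_gen k _ ?_ ?_
      · refine Finset.card_biUnion_le.trans ?_
        calc ∑ i : Fin 4, #((Y i).image fun z => h i * c + W * z + g i) ≤ ∑ i : Fin 4, k :=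
              Finset.sum_le_sum fun i _ => (Finset.card_image_le).trans (hYk i).le
          _ = 4 * k := by simp
      · intro p hp hpk
        have hpW : p ∣ W := ((hp.dvd_factorial).2 hpk).trans hWk
        have hmod : ∀ i : Fin 4, ∀ z, h i * c + W * z + g i ≡ h i * c + g i [MOD p] := by
          intro i z
          have h1 : h i * c + W * z ≡ h i * c + 0 [MOD p] :=
            Nat.ModEq.add_left _ ((Nat.modEq_zero_iff_dvd).2 (hpW.mul_right z))
          rw [add_zero] at h1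
          exact Nat.ModEq.add_right _ h1
        obtain ⟨r, hr⟩ := hadm p hp hpk
        refine ⟨r, fun u hu hmod1 => ?_⟩
        obtain ⟨i, -, hu⟩ := Finset.mem_biUnion.1 hu
        obtain ⟨z, hz, rfl⟩ := Finset.mem_image.1 hu
        exact hr i ((hmod i z).symm.trans hmod1))
  obtain ⟨y, hy, rfl⟩ := Finset.mem_image.1 ha
  obtain ⟨z, hz, rfl⟩ := Finset.mem_image.1 hb
  rcases lt_or_gt_of_ne hij with h1 | h1
  · exact hdiff i j h1 y hy z hz hDab
  · have := hlt j i h1 z hz y hy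
    omega

open PG Classical in
theorem almost_all (D : Set ℕ) (k : ℕ) (hk : 0 < k) (hD : HitsBins 4 k D) (h g : Fin 4 → ℕ)
    (hmono : StrictMono h) (ε : ℝ) (hε : 0 < ε) : ∃ L : ℕ, ∀ n ≥ L, ∀ x : ℕ,
      (#{a ∈ Finset.Ioc x (x + n) |
        (∀ p : ℕ, p.Prime → ∃ r : ℕ, ∀ i, ¬ h i * a + g i ≡ r [MOD p]) ∧
        ∀ i j : Fin 4, i < j → (h j * a + g j) - (h i * a + g i) ∉ D} : ℝ) ≤ ε * n := by
  obtain ⟨δ, hδ0, hδ1, hδε⟩ : ∃ δ : ℝ, 0 < δ ∧ δ ≤ 1 ∧ δ ≤ ε :=
    ⟨min 1 ε, by positivity, min_le_left _ _, min_le_right _ _⟩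
  obtain ⟨R, hR0, hR⟩ := trem_ord h hmono k hk (δ / 2) (by positivity) (by linarith)
  obtain ⟨W, hW⟩ : ∃ W : ℕ, W = (4 * k).factorial := ⟨_, rfl⟩
  have hW0 : 0 < W := hW ▸ Nat.factorial_pos _
  obtain ⟨G, hG⟩ : ∃ G : ℕ, G = ∑ i, g i := ⟨_, rfl⟩
  have hgG : ∀ i, g i ≤ G := fun i => hG ▸ Finset.single_le_sum (fun i _ => Nat.zero_le (g i))
    (Finset.mem_univ i)
  refine ⟨⌈2 * ((W * R + G : ℕ) : ℝ) / δ⌉₊ + 1, fun n hn x => ?_⟩
  by_contra hcon
  push Not at hcon
  obtain ⟨A, hA⟩ : ∃ A : Finset ℕ, A = {a ∈ Finset.Ioc x (x + n) |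
      ((∀ p : ℕ, p.Prime → ∃ r : ℕ, ∀ i, ¬ h i * a + g i ≡ r [MOD p]) ∧
        ∀ i j : Fin 4, i < j → (h j * a + g j) - (h i * a + g i) ∉ D) ∧ G < a} := ⟨_, rfl⟩
  have hAI : ∀ a ∈ A, x < a ∧ a ≤ x + n := fun a ha => by
    rw [hA] at ha
    exact Finset.mem_Ioc.1 (Finset.mem_filter.1 ha).1
  have hn1 : (0:ℝ) < n := by
    have : 0 < n := by omega
    exact_mod_cast this
  have hAc : δ * n < #A + (G : ℝ) := by
    refine lt_of_le_of_lt (b := ε * n) (by gcongr) (lt_of_lt_of_le hcon ?_)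
    have h1 : ({a ∈ Finset.Ioc x (x + n) |
        (∀ p : ℕ, p.Prime → ∃ r : ℕ, ∀ i, ¬ h i * a + g i ≡ r [MOD p]) ∧
        ∀ i j : Fin 4, i < j → (h j * a + g j) - (h i * a + g i) ∉ D} : Finset ℕ) ⊆
        A ∪ Finset.Ioc 0 G := by
      intro a ha
      obtain ⟨h1, h2⟩ := Finset.mem_filter.1 ha
      rw [Finset.mem_union, hA, Finset.mem_filter, Finset.mem_Ioc (a := 0)]
      by_cases h3 : G < a
      · exact Or.inl ⟨h1, h2, h3⟩
      · refine Or.inr ⟨?_, not_lt.1 h3⟩
        have := (Finset.mem_Ioc.1 h1).1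
        omega
    have h2 := (Finset.card_le_card h1).trans (Finset.card_union_le _ _)
    rw [Nat.card_Ioc, Nat.sub_zero] at h2
    exact_mod_cast h2
  have hWR : ((W * R : ℕ) : ℝ) + G ≤ δ / 2 * n := by
    have h1 : 2 * ((W * R + G : ℕ) : ℝ) / δ ≤ n := by
      refine (Nat.le_ceil _).trans ?_
      exact_mod_cast (by omega : ⌈2 * ((W * R + G : ℕ) : ℝ) / δ⌉₊ ≤ n)
    rw [div_le_iff₀ hδ0] at h1
    push_cast at h1 ⊢
    linarith
  have hshift : ∀ L ∈ Finset.Icc 1 R, #A ≤ #{c ∈ Finset.Ioc x (x + n) | c + W * L ∈ A} + W * R := by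
    intro L hL
    rw [Finset.mem_Icc] at hL
    have h1 : A ⊆ {a ∈ A | x + W * L < a} ∪ Finset.Ioc x (x + W * L) := by
      intro a ha
      rw [Finset.mem_union, Finset.mem_filter, Finset.mem_Ioc]
      by_cases h2 : x + W * L < a
      · exact Or.inl ⟨ha, h2⟩
      · exact Or.inr ⟨(hAI a ha).1, not_lt.1 h2⟩
    refine (Finset.card_le_card h1).trans ((Finset.card_union_le _ _).trans (Nat.add_le_add ?_ ?_))
    · refine Finset.card_le_card_of_injOn (fun a => a - W * L) ?_ ?_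
      · intro a ha
        obtain ⟨h2, h3⟩ := Finset.mem_filter.1 ha
        have h4 := hAI a h2
        have h5 : a - W * L + W * L = a := Nat.sub_add_cancel (by omega)
        refine Finset.mem_coe.2 (Finset.mem_filter.2 ⟨Finset.mem_Ioc.2 ⟨?_, ?_⟩, ?_⟩)
        · show x < a - W * L
          omega
        · show a - W * L ≤ x + n
          omega
        · show a - W * L + W * L ∈ A
          rw [h5]
          exact h2
      · intro a ha b hb hab
        have h3 := (Finset.mem_filter.1 ha).2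
        have h4 := (Finset.mem_filter.1 hb).2
        simp only at hab
        omega
    · rw [Nat.card_Ioc, Nat.add_sub_cancel_left]
      exact Nat.mul_le_mul_left _ hL.2
  have hex : ∃ c : ℕ, δ / 2 * R ≤ #{L ∈ Finset.Icc 1 R | c + W * L ∈ A} := by
    by_contra hno
    push Not at hno
    have h1 : ∀ L ∈ Finset.Icc 1 R, δ / 2 * (n : ℝ) <
        #{c ∈ Finset.Ioc x (x + n) | c + W * L ∈ A} := by
      intro L hL
      have h2 : (#A : ℝ) ≤ #{c ∈ Finset.Ioc x (x + n) | c + W * L ∈ A} + ((W * R : ℕ) : ℝ) := by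
        exact_mod_cast hshift L hL
      linarith
    have h4 : ∑ L ∈ Finset.Icc 1 R, (#{c ∈ Finset.Ioc x (x + n) | c + W * L ∈ A} : ℝ) =
        ∑ c ∈ Finset.Ioc x (x + n), (#{L ∈ Finset.Icc 1 R | c + W * L ∈ A} : ℝ) := by
      have h5 : ∑ L ∈ Finset.Icc 1 R, #{c ∈ Finset.Ioc x (x + n) | c + W * L ∈ A} =
          ∑ c ∈ Finset.Ioc x (x + n), #{L ∈ Finset.Icc 1 R | c + W * L ∈ A} := by
        simp_rw [Finset.card_filter]
        exact Finset.sum_comm
      exact_mod_cast h5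
    have h6 : (R : ℝ) * (δ / 2 * n) ≤
        ∑ L ∈ Finset.Icc 1 R, (#{c ∈ Finset.Ioc x (x + n) | c + W * L ∈ A} : ℝ) := by
      calc (R : ℝ) * (δ / 2 * n) = ∑ _L ∈ Finset.Icc 1 R, δ / 2 * (n : ℝ) := by
            rw [Finset.sum_const, Nat.card_Icc, nsmul_eq_mul]
            simp
        _ ≤ _ := Finset.sum_le_sum fun L hL => (h1 L hL).le
    have h7 : ∑ c ∈ Finset.Ioc x (x + n), (#{L ∈ Finset.Icc 1 R | c + W * L ∈ A} : ℝ) <
        ∑ _c ∈ Finset.Ioc x (x + n), δ / 2 * (R : ℝ) := by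
      refine Finset.sum_lt_sum_of_nonempty ⟨x + n, Finset.mem_Ioc.2 ⟨?_, le_refl _⟩⟩
        fun c _ => hno c
      have : 0 < n := by omega
      omega
    rw [Finset.sum_const, nsmul_eq_mul, Nat.card_Ioc, Nat.add_sub_cancel_left] at h7
    rw [h4] at h6
    nlinarith
  obtain ⟨c, hc⟩ := hex
  obtain ⟨Y, hYk, hYd⟩ := hR {L ∈ Finset.Icc 1 R | c + W * L ∈ A} (Finset.filter_subset _ _) hc
  have hR1 : (0:ℝ) < R := by exact_mod_cast hR0
  -- some member of `A` in the class of `c`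
  obtain ⟨L₀, hL₀⟩ : ∃ L₀, L₀ ∈ ({L ∈ Finset.Icc 1 R | c + W * L ∈ A} : Finset ℕ) := by
    apply Finset.card_pos.1
    have : (0:ℝ) < #{L ∈ Finset.Icc 1 R | c + W * L ∈ A} := lt_of_lt_of_le (by positivity) hc
    exact_mod_cast this
  have hL₀A := (Finset.mem_filter.1 hL₀).2
  rw [hA, Finset.mem_filter] at hL₀A
  have hadm := hL₀A.2.1.1
  have hdiff : ∀ p q, p < q → ∀ a ∈ Y p, ∀ b ∈ Y q, ∃ e ∈ A,
      (h q * c + W * b + g q) + (h p * e + g p) =
        (h p * c + W * a + g p) + (h q * e + g q) ∧ h p * e + g p < h q * e + g q := by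
    intro p q hpq a ha b hb
    obtain ⟨L, hL, rfl⟩ := hYd p q hpq a ha b hb
    obtain ⟨h1, h2⟩ := Finset.mem_filter.1 hL
    obtain ⟨t, ht⟩ := Nat.exists_eq_add_of_lt (hmono hpq)
    refine ⟨c + W * L, h2, ?_, ?_⟩
    · rw [ht, show h p + t + 1 - h p = t + 1 by omega]
      ring
    · have h3 : G < c + W * L := by
        have h4 := h2
        rw [hA] at h4
        exact (Finset.mem_filter.1 h4).2.2
      have h5 := hgG p
      rw [ht]
      nlinarith [Nat.zero_le (t * (c + W * L)), Nat.zero_le (g q)]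
  have hlt : ∀ p q, p < q → ∀ a ∈ Y p, ∀ b ∈ Y q,
      h p * c + W * a + g p < h q * c + W * b + g q := by
    intro p q hpq a ha b hb
    obtain ⟨e, he, h1, h2⟩ := hdiff p q hpq a ha b hb
    omega
  refine bins_key D k hD h g c W hW0 (hW ▸ dvd_refl _) Y hYk ?_ hlt ?_
  · intro p hp hpk
    obtain ⟨r, hr⟩ := hadm p hp
    refine ⟨r, fun i hi => hr i ?_⟩
    have hpW : p ∣ W := hW ▸ (hp.dvd_factorial).2 hpk
    have h2 : h i * (c + W * L₀) ≡ h i * (c + 0) [MOD p] :=
      Nat.ModEq.mul_left _ (Nat.ModEq.add_left _ ((Nat.modEq_zero_iff_dvd).2 (hpW.mul_right L₀)))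
    rw [add_zero] at h2
    exact (Nat.ModEq.add_right _ h2).trans hi
  · intro p q hpq a ha b hb
    obtain ⟨e, he, h2, h3⟩ := hdiff p q hpq a ha b hb
    rw [hA] at he
    have h4 := (Finset.mem_filter.1 he).2.1.2 p q hpq
    have h5 : h q * e + g q - (h p * e + g p) =
        h q * c + W * b + g q - (h p * c + W * a + g p) := by omega
    rw [← h5]
    exact h4

open PG in
/-- The exceptional set contains no long arithmetic progression. -/
theorem no_progression (D : Set ℕ) (k : ℕ) (hD : HitsBins 4 k D) (h g : Fin 4 → ℕ)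
    (hmono : StrictMono h) : ∃ K : ℕ, ∀ a d : ℕ, 0 < d → ∃ u < K,
      ¬ ((∀ p : ℕ, p.Prime → ∃ r : ℕ, ∀ i, ¬ h i * (a + d * u) + g i ≡ r [MOD p]) ∧
        ∀ i j : Fin 4, i < j → (h j * (a + d * u) + g j) - (h i * (a + d * u) + g i) ∉ D) := by
  classical
  obtain ⟨W, hW⟩ : ∃ W : ℕ, W = (4 * k).factorial := ⟨_, rfl⟩
  have hW0 : 0 < W := hW ▸ Nat.factorial_pos _
  obtain ⟨G, hG⟩ : ∃ G : ℕ, G = ∑ i, g i := ⟨_, rfl⟩
  have hgG : ∀ i, g i ≤ G := fun i => hG ▸ Finset.single_le_sum (fun i _ => Nat.zero_le (g i))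
    (Finset.mem_univ i)
  obtain ⟨P, hP⟩ : ∃ P : ℕ, P = (h 3).factorial := ⟨_, rfl⟩
  have hP0 : 0 < P := hP ▸ Nat.factorial_pos _
  have hdvd : ∀ p q : Fin 4, p < q → h q - h p ∣ P := by
    intro p q hpq
    rw [hP]
    refine Nat.dvd_factorial (Nat.sub_pos_of_lt (hmono hpq)) ?_
    have : h q ≤ h 3 := hmono.monotone (Fin.le_last q)
    omega
  refine ⟨G + 2 + 2 * (k * (P * W)), fun a d hd => ?_⟩
  by_contra hcon
  push Not at hcon
  obtain ⟨m, hm⟩ : ∃ m : ℕ, m = G + 1 + k * (P * W) := ⟨_, rfl⟩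
  have hmK : m < G + 2 + 2 * (k * (P * W)) := by omega
  -- the members of the progression that occur
  have hstep : ∀ p q : Fin 4, p < q → ∀ x < k, ∀ y < k, ∃ u < G + 2 + 2 * (k * (P * W)),
      G < a + d * u ∧ (h q * (a + d * m) + d * (P * W) * y + g q) +
        (h p * (a + d * u) + g p) =
        (h p * (a + d * m) + d * (P * W) * x + g p) + (h q * (a + d * u) + g q) := by
    intro p q hpq x hx y hy
    obtain ⟨t, ht⟩ := hdvd p q hpq
    obtain ⟨s, hs⟩ := Nat.exists_eq_add_of_lt (hmono hpq)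
    have hs1 : h q - h p = s + 1 := by omega
    rw [hs1] at ht
    have htP : t ≤ P := by
      rw [ht]
      exact Nat.le_mul_of_pos_left t (Nat.succ_pos s)
    have h1 : t * W * x ≤ k * (P * W) := by
      calc t * W * x ≤ P * W * k := Nat.mul_le_mul (Nat.mul_le_mul_right _ htP) hx.le
        _ = k * (P * W) := by ring
    have h2 : t * W * y ≤ k * (P * W) := by
      calc t * W * y ≤ P * W * k := Nat.mul_le_mul (Nat.mul_le_mul_right _ htP) hy.le
        _ = k * (P * W) := by ring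
    obtain ⟨u, hu⟩ : ∃ u : ℕ, u + t * W * x = m + t * W * y :=
      ⟨m + t * W * y - t * W * x, by omega⟩
    refine ⟨u, by omega, ?_, ?_⟩
    · have h3 : G < u := by omega
      calc G < u := h3
        _ ≤ d * u := Nat.le_mul_of_pos_left u hd
        _ ≤ a + d * u := Nat.le_add_left _ _
    · have h4 : (s + 1) * (d * u) + d * ((s + 1) * t * W) * x =
          (s + 1) * (d * m) + d * ((s + 1) * t * W) * y := by
        have h5 : (s + 1) * d * (u + t * W * x) = (s + 1) * d * (m + t * W * y) := by rw [hu]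
        linarith
      rw [hs, ht]
      linarith
  refine bins_key D k hD h g (a + d * m) (d * (P * W)) (by positivity)
    (hW ▸ ((dvd_mul_left _ _).trans (dvd_mul_left _ _))) (fun _ => Finset.range k)
    (fun _ => Finset.card_range k) (fun p hp _ => (hcon m hmK).1 p hp) ?_ ?_
  · intro p q hpq x hx y hy
    obtain ⟨u, huK, hGu, hu⟩ := hstep p q hpq x (Finset.mem_range.1 hx) y (Finset.mem_range.1 hy)
    have h1 : h p * (a + d * u) + g p < h q * (a + d * u) + g q := by
      obtain ⟨s, hs⟩ := Nat.exists_eq_add_of_lt (hmono hpq)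
      have h5 := hgG p
      rw [hs]
      nlinarith [Nat.zero_le (s * (a + d * u)), Nat.zero_le (g q)]
    omega
  · intro p q hpq x hx y hy
    obtain ⟨u, huK, hGu, hu⟩ := hstep p q hpq x (Finset.mem_range.1 hx) y (Finset.mem_range.1 hy)
    have h4 := (hcon u huK).2 p q hpq
    have h5 : h q * (a + d * u) + g q - (h p * (a + d * u) + g p) =
        h q * (a + d * m) + d * (P * W) * y + g q - (h p * (a + d * m) + d * (P * W) * x + g p) := by
      omega
    rw [← h5]
    exact h4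

end Pool.Agent.Lib_helper23.DV
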