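import Mathlib

/-! Blow-ups of a clique in a system of dense uniform pairs. -/

open Finset

set_option autoImplicit false

namespace Pool.Agent.Lib_helper23.DV

variable {α : Type*} [DecidableEq α] (G : SimpleGraph α) [DecidableRel G.Adj]

omit [DecidableEq α] in
theorem card_inter_sum (s t : Finset α) :
    #(G.interedges s t) = ∑ a ∈ s, #{b ∈ t | G.Adj a b} := by
  unfold SimpleGraph.interedges Rel.interedges
  rw [Finset.card_filter, Finset.sum_product]
  refine Finset.sum_congr rfl fun a _ => ?_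
  rw [Finset.card_filter]

/-- one vertex with many neighbours in all the other sets -/
theorem pick1 {ι : Type*} (J : Finset ι) (ε d θ : ℝ) (hε : 0 < ε) (hθ : θ ≤ d - ε)
    (C A : Finset α) (hA : A ⊆ C) (C' B : ι → Finset α) (hB : ∀ j ∈ J, B j ⊆ C' j)
    (hU : ∀ j ∈ J, G.IsUniform ε C (C' j)) (hd : ∀ j ∈ J, d ≤ (G.edgeDensity C (C' j) : ℝ))
    (hBc : ∀ j ∈ J, ε * #(C' j) ≤ #(B j)) (hBpos : ∀ j ∈ J, 0 < #(B j))
    (hAc : (#J : ℝ) * (ε * #C) < #A) :
    ∃ a ∈ A, ∀ j ∈ J, θ * #(B j) ≤ #{b ∈ B j | G.Adj a b} := by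
  classical
  let Bad : ι → Finset α := fun j => {a ∈ A | (#{b ∈ B j | G.Adj a b} : ℝ) < θ * #(B j)}
  have hbad : ∀ j ∈ J, (#(Bad j) : ℝ) ≤ ε * #C := by
    intro j hj
    by_contra hcon
    push Not at hcon
    have hsub : Bad j ⊆ C := (Finset.filter_subset _ _).trans hA
    have h1 := hU j hj hsub (hB j hj) (by rw [mul_comm]; exact hcon.le)
      (by rw [mul_comm]; exact hBc j hj)
    have hεC : 0 ≤ ε * #C := by positivity
    have hne : (0:ℝ) < #(Bad j) := lt_of_le_of_lt hεC hcon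
    have hBp : (0:ℝ) < #(B j) := by exact_mod_cast hBpos j hj
    have h2 : (G.edgeDensity (Bad j) (B j) : ℝ) ≤ θ := by
      rw [SimpleGraph.edgeDensity_def]
      push_cast
      rw [div_le_iff₀ (by positivity), card_inter_sum]
      push_cast
      calc ∑ a ∈ Bad j, (#{b ∈ B j | G.Adj a b} : ℝ) ≤ ∑ _a ∈ Bad j, θ * #(B j) :=
            Finset.sum_le_sum fun a ha => (Finset.mem_filter.1 ha).2.le
        _ = θ * (#(Bad j) * #(B j)) := by
            rw [Finset.sum_const, nsmul_eq_mul]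
            ring
    have h3 := (abs_lt.1 h1).1
    linarith [hd j hj]
  have hU2 : (#(J.biUnion Bad) : ℝ) ≤ (#J : ℝ) * (ε * #C) := by
    calc (#(J.biUnion Bad) : ℝ) ≤ ∑ j ∈ J, (#(Bad j) : ℝ) := by
          exact_mod_cast Finset.card_biUnion_le
      _ ≤ ∑ _j ∈ J, ε * #C := Finset.sum_le_sum hbad
      _ = _ := by rw [Finset.sum_const, nsmul_eq_mul]
  have hlt : #(J.biUnion Bad) < #A := by exact_mod_cast lt_of_le_of_lt hU2 hAc
  obtain ⟨a, haA, ha⟩ := Finset.exists_mem_notMem_of_card_lt_card hlt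
  refine ⟨a, haA, fun j hj => ?_⟩
  by_contra hcon
  push Not at hcon
  exact ha (Finset.mem_biUnion.2 ⟨j, hj, Finset.mem_filter.2 ⟨haA, hcon⟩⟩)

/-- `k` vertices with many common neighbours in all the other sets -/
theorem pickk {ι : Type*} (J : Finset ι) (ε d θ : ℝ) (hε : 0 < ε) (hθ : θ ≤ d - ε)
    (hθ0 : 0 < θ) (hθ1 : θ ≤ 1) (C : Finset α) (C' : ι → Finset α)
    (hU : ∀ j ∈ J, G.IsUniform ε C (C' j)) (hd : ∀ j ∈ J, d ≤ (G.edgeDensity C (C' j) : ℝ))
    (k : ℕ) : ∀ (A : Finset α) (_ : A ⊆ C) (B : ι → Finset α) (_ : ∀ j ∈ J, B j ⊆ C' j)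
    (_ : ∀ j ∈ J, ε * #(C' j) ≤ θ ^ k * #(B j)) (_ : ∀ j ∈ J, 0 < #(B j))
    (_ : (#J : ℝ) * (ε * #C) + k ≤ #A),
    ∃ S ⊆ A, #S = k ∧ ∀ j ∈ J, θ ^ k * #(B j) ≤ #{b ∈ B j | ∀ a ∈ S, G.Adj a b} := by
  induction k with
  | zero =>
    intro A hA B hB hBc hBpos hAc
    refine ⟨∅, Finset.empty_subset _, rfl, fun j hj => ?_⟩
    simp
  | succ k ih =>
    intro A hA B hB hBc hBpos hAc
    have hεC : (0:ℝ) ≤ (#J : ℝ) * (ε * #C) := by positivity
    obtain ⟨a, haA, ha⟩ := pick1 G J ε d θ hε hθ C A hA C' B hB hU hd (fun j hj => by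
        refine (hBc j hj).trans ?_
        have : θ ^ (k + 1) ≤ 1 := pow_le_one₀ hθ0.le hθ1
        calc θ ^ (k + 1) * (#(B j) : ℝ) ≤ 1 * #(B j) := by gcongr
          _ = _ := one_mul _) hBpos (by push_cast at hAc; linarith)
    obtain ⟨S, hSA, hSk, hS⟩ := ih (A.erase a) ((Finset.erase_subset _ _).trans hA)
      (fun j => {b ∈ B j | G.Adj a b}) (fun j hj => (Finset.filter_subset _ _).trans (hB j hj))
      (fun j hj => by
        refine (hBc j hj).trans ?_
        rw [pow_succ, mul_assoc]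
        gcongr
        exact ha j hj)
      (fun j hj => by
        have h1 : (0:ℝ) < θ * #(B j) := by
          have := hBpos j hj
          positivity
        exact_mod_cast lt_of_lt_of_le h1 (ha j hj))
      (by
        rw [Finset.card_erase_of_mem haA, Nat.cast_sub (Finset.card_pos.2 ⟨a, haA⟩)]
        push_cast at hAc ⊢
        linarith)
    have haS : a ∉ S := fun h => by simpa using hSA h
    refine ⟨insert a S, ?_, by rw [Finset.card_insert_of_notMem haS, hSk], fun j hj => ?_⟩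
    · intro b hb
      rcases Finset.mem_insert.1 hb with rfl | hb
      · exact haA
      · exact Finset.mem_of_mem_erase (hSA hb)
    · calc θ ^ (k + 1) * (#(B j) : ℝ) = θ ^ k * (θ * #(B j)) := by ring
        _ ≤ θ ^ k * #{b ∈ B j | G.Adj a b} := by
          gcongr
          exact ha j hj
        _ ≤ _ := hS j hj
        _ ≤ _ := by
          norm_cast
          refine Finset.card_le_card fun b hb => ?_
          rw [Finset.mem_filter, Finset.mem_filter] at hb
          rw [Finset.mem_filter]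
          refine ⟨hb.1.1, fun c hc => ?_⟩
          rcases Finset.mem_insert.1 hc with rfl | hc
          · exact hb.1.2
          · exact hb.2 c hc

/-- blow-up of a clique in `r` clusters -/
theorem emb (ε d θ : ℝ) (hε : 0 < ε) (hθ : θ ≤ d - ε) (hθ0 : 0 < θ) (hθ1 : θ ≤ 1) (k : ℕ) :
    ∀ (r : ℕ) (C B : Fin r → Finset α) (_ : ∀ i, B i ⊆ C i)
      (_ : ∀ i j, i ≠ j → G.IsUniform ε (C i) (C j))
      (_ : ∀ i j, i ≠ j → d ≤ (G.edgeDensity (C i) (C j) : ℝ))
      (_ : ∀ i, r * (ε * #(C i)) + (k + 1) ≤ θ ^ (k * r) * #(B i)),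
      ∃ S : Fin r → Finset α, (∀ i, S i ⊆ B i ∧ #(S i) = k) ∧
        ∀ i j, i ≠ j → ∀ a ∈ S i, ∀ b ∈ S j, G.Adj a b := by
  intro r
  induction r with
  | zero =>
    intro C B _ _ _ _
    exact ⟨fun _ => ∅, fun i => i.elim0, fun i => i.elim0⟩
  | succ r ih =>
    intro C B hB hU hd hc
    have hpow : θ ^ (k * (r + 1)) ≤ θ ^ k :=
      pow_le_pow_of_le_one hθ0.le hθ1 (Nat.le_mul_of_pos_right k (Nat.succ_pos r))
    have hpow1 : θ ^ (k * (r + 1)) ≤ 1 := pow_le_one₀ hθ0.le hθ1
    have hCnn : ∀ i, 0 ≤ ε * (#(C i) : ℝ) := fun i => by positivity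
    obtain ⟨S0, hS0B, hS0k, hS0⟩ := pickk G (Finset.univ : Finset (Fin r)) ε d θ hε hθ hθ0 hθ1
      (C 0) (fun j => C j.succ) (fun j _ => hU 0 j.succ (Fin.succ_ne_zero j).symm)
      (fun j _ => hd 0 j.succ (Fin.succ_ne_zero j).symm) k (B 0) (hB 0) (fun j => B j.succ)
      (fun j _ => hB j.succ)
      (fun j _ => by
        have h1 := hc j.succ
        have h2 : θ ^ (k * (r + 1)) * (#(B j.succ) : ℝ) ≤ θ ^ k * #(B j.succ) := by gcongr
        have h3 : (0:ℝ) ≤ (r : ℝ) * (ε * #(C j.succ)) := by positivity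
        push_cast at h1
        have h4 : (0:ℝ) ≤ k := Nat.cast_nonneg k
        nlinarith)
      (fun j _ => by
        have h1 := hc j.succ
        have h3 : (0:ℝ) ≤ ((r + 1 : ℕ) : ℝ) * (ε * #(C j.succ)) := by positivity
        have h4 : (0:ℝ) ≤ k := Nat.cast_nonneg k
        by_contra h0
        have h0' : #(B j.succ) = 0 := by omega
        rw [h0'] at h1
        norm_num at h1
        push_cast at h3
        linarith)
      (by
        have h1 := hc 0
        have h2 : θ ^ (k * (r + 1)) * (#(B 0) : ℝ) ≤ 1 * #(B 0) := by gcongr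
        have h3 := hCnn 0
        rw [Finset.card_univ, Fintype.card_fin]
        push_cast at h1
        nlinarith)
    obtain ⟨S, hS, hadj⟩ := ih (fun j => C j.succ) (fun j => {b ∈ B j.succ | ∀ a ∈ S0, G.Adj a b})
      (fun j => (Finset.filter_subset _ _).trans (hB j.succ))
      (fun i j hij => hU _ _ (fun h => hij (Fin.succ_injective _ h)))
      (fun i j hij => hd _ _ (fun h => hij (Fin.succ_injective _ h)))
      (fun j => by
        have h1 := hc j.succ
        have h2 := hS0 j (Finset.mem_univ j)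
        have h3 := hCnn j.succ
        have h5 : θ ^ (k * (r + 1)) * (#(B j.succ) : ℝ) = θ ^ (k * r) * (θ ^ k * #(B j.succ)) := by
          rw [mul_add, mul_one, pow_add]
          ring
        have h4 : θ ^ (k * (r + 1)) * (#(B j.succ) : ℝ) ≤
            θ ^ (k * r) * #{b ∈ B j.succ | ∀ a ∈ S0, G.Adj a b} := by
          rw [h5]
          gcongr
        push_cast at h1
        nlinarith)
    refine ⟨Fin.cons S0 S, fun i => ?_, fun i j hij a ha b hb => ?_⟩
    · refine Fin.cases ?_ (fun j => ?_) i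
      · exact ⟨by simpa using hS0B, by simpa using hS0k⟩
      · refine ⟨?_, by simpa using (hS j).2⟩
        simpa using (hS j).1.trans (Finset.filter_subset _ _)
    · rcases Fin.eq_zero_or_eq_succ i with rfl | ⟨i', rfl⟩
      · rcases Fin.eq_zero_or_eq_succ j with rfl | ⟨j', rfl⟩
        · exact absurd rfl hij
        · rw [Fin.cons_zero] at ha
          rw [Fin.cons_succ] at hb
          exact (Finset.mem_filter.1 ((hS j').1 hb)).2 a ha
      · rcases Fin.eq_zero_or_eq_succ j with rfl | ⟨j', rfl⟩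
        · rw [Fin.cons_zero] at hb
          rw [Fin.cons_succ] at ha
          exact ((Finset.mem_filter.1 ((hS i').1 ha)).2 b hb).symm
        · rw [Fin.cons_succ] at ha hb
          exact hadj i' j' (fun h => hij (by rw [h])) a ha b hb

end Pool.Agent.Lib_helper23.DV
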